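import Pool.Agent.Q247.SY.Stm

/-! Rounding in the mixed space of a number field. -/

set_option autoImplicit false
open scoped NumberField
open NumberField NumberField.mixedEmbedding

namespace Q66.SY

theorem nap_sum {K : Type} [Field K] [NumberField K] (w : InfinitePlace K) {ι : Type}
    (s : Finset ι) (f : ι → mixedSpace K) :
    normAtPlace w (∑ k ∈ s, f k) ≤ ∑ k ∈ s, normAtPlace w (f k) := by
  classical
  induction s using Finset.induction_on with
  | empty => simp
  | insert a s ha ih =>
    rw [Finset.sum_insert ha, Finset.sum_insert ha]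
    exact (normAtPlace_add_le w _ _).trans (by gcongr)

theorem t_ROUND : Q247.SY.S_ROUND := by
  intro K _ _
  classical
  let b := latticeBasis K
  refine ⟨1 + ∑ w : InfinitePlace K, ∑ k, normAtPlace w (b k), ?_, fun u => ?_⟩
  · have h : 0 ≤ ∑ w : InfinitePlace K, ∑ k, normAtPlace w (b k) :=
      Finset.sum_nonneg fun w _ => Finset.sum_nonneg fun k _ => normAtPlace_nonneg w _
    linarith
  · refine ⟨∑ k, ⌊b.repr u k⌋ • RingOfIntegers.basis K k, fun w => ?_⟩
    have h1 : mixedEmbedding K ((∑ k, ⌊b.repr u k⌋ • RingOfIntegers.basis K k : 𝓞 K) : K) =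
        ∑ k, ((⌊b.repr u k⌋ : ℤ) : ℝ) • b k := by
      rw [RingOfIntegers.coe_eq_algebraMap, map_sum, map_sum]
      refine Finset.sum_congr rfl fun k _ => ?_
      rw [map_zsmul, map_zsmul, Int.cast_smul_eq_zsmul]
      congr 1
      rw [latticeBasis_apply, integralBasis_apply]
    have h2 : mixedEmbedding K ((∑ k, ⌊b.repr u k⌋ • RingOfIntegers.basis K k : 𝓞 K) : K) - u =
        ∑ k, (((⌊b.repr u k⌋ : ℤ) : ℝ) - b.repr u k) • b k := by
      rw [h1]
      conv_lhs => rw [← b.sum_repr u]
      rw [← Finset.sum_sub_distrib]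
      refine Finset.sum_congr rfl fun k _ => ?_
      rw [b.sum_repr u, sub_smul]
    rw [h2]
    calc normAtPlace w (∑ k, (((⌊b.repr u k⌋ : ℤ) : ℝ) - b.repr u k) • b k)
        ≤ ∑ k, normAtPlace w ((((⌊b.repr u k⌋ : ℤ) : ℝ) - b.repr u k) • b k) := nap_sum w _ _
      _ ≤ ∑ k, normAtPlace w (b k) := by
          refine Finset.sum_le_sum fun k _ => ?_
          rw [normAtPlace_smul]
          refine mul_le_of_le_one_left (normAtPlace_nonneg w _) ?_
          rw [abs_sub_comm, abs_of_nonneg (sub_nonneg.mpr (Int.floor_le _))]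
          have := Int.lt_floor_add_one (b.repr u k)
          linarith
      _ ≤ ∑ w : InfinitePlace K, ∑ k, normAtPlace w (b k) :=
          Finset.single_le_sum (f := fun w : InfinitePlace K => ∑ k, normAtPlace w (b k))
            (fun w _ => Finset.sum_nonneg fun k _ => normAtPlace_nonneg w _) (Finset.mem_univ w)
      _ ≤ 1 + ∑ w : InfinitePlace K, ∑ k, normAtPlace w (b k) := by linarith

end Q66.SY
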